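import Pool.Agent.Mg.F598c06.G45af1e

namespace Pool.Agent.Results.MP_598c06_an.LevelK

open Pool.Agent.MP_598c06_an

theorem result (n k : ℕ) :
    ∃ T : X (n + 2), T.1 = tree n k ∧ ∀ j : ℕ, AtLevel j (closure (leaf T)) ↔ j = k :=
  main n k

end Pool.Agent.Results.MP_598c06_an.LevelK
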