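import Pool.Agent.MP_598c06_an.Rec

namespace Pool.Agent.Results.MP_598c06_an.RecurrentLevelK

open Pool.Agent.MP_598c06_an

theorem result (n k : ℕ) (hk : 1 ≤ k) :
    ∃ T : X (n + 2), T.1 = rtree n k ∧ T ∈ closure ({T' | ∃ g, Reroot g T T'} \ {T}) ∧
      ∀ j : ℕ, AtLevel j (closure (leaf T)) ↔ j = k :=
  rec_main n k hk

end Pool.Agent.Results.MP_598c06_an.RecurrentLevelK
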